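import Mathlib

/-!
# Filtrations which are determined by projectors

`Z` is the space of zero-cycles on a variety `X` of dimension `d` (a subspace of a space `A`), `rat`
the space of cycles which are rationally equivalent to zero, the `e T` are correspondences which are
orthogonal projectors modulo `rat` with the sum `1`, and `e T` kills the forms of all degrees
`≠ w T`. Then a filtration with the properties of a Bloch-Beilinson filtration is determined by the
`e T`.
-/

set_option autoImplicit false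

namespace Pool.Agent.BBU

variable {A : Type*} [AddCommGroup A] [Module ℚ A]

/-- the conditions on a filtration and projectors -/
structure Split (rat Z : Submodule ℚ A) (Φ : ℕ → Submodule ℚ A) {ι : Type*} [Fintype ι]
    (w : ι → ℕ) (d : ℕ) (e : ι → A →ₗ[ℚ] A) : Prop where
  ge : ∀ ν, rat ≤ Φ ν
  anti : ∀ ν, Φ (ν + 1) ≤ Φ ν
  zero : Φ 0 = Z
  top : Φ (d + 1) ≤ rat
  sum : ∀ z ∈ Z, z - ∑ T, e T z ∈ rat
  idem : ∀ T, ∀ z ∈ Z, e T (e T z) - e T z ∈ rat
  map : ∀ T ν, ∀ z ∈ Φ ν, e T z ∈ Φ ν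
  kill : ∀ T ν, ν ≠ w T → ∀ z ∈ Φ ν, e T z ∈ Φ (ν + 1)

variable {rat Z : Submodule ℚ A} {Φ Ψ : ℕ → Submodule ℚ A} {ι : Type*} [Fintype ι] {w : ι → ℕ}
  {d : ℕ} {e : ι → A →ₗ[ℚ] A}

private lemma antitone (h : Split rat Z Φ w d e) {ν ν' : ℕ} (hν : ν ≤ ν') : Φ ν' ≤ Φ ν := by
  induction ν', hν using Nat.le_induction with
  | base => exact le_rfl
  | succ k _ ih => exact (h.anti k).trans ih

private lemma step (h : Split rat Z Φ w d e) {T : ι} {ν : ℕ} (hν : ν ≠ w T) {z : A} (hZ : z ∈ Z)
    (hz : e T z ∈ Φ ν) : e T z ∈ Φ (ν + 1) := by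
  have h1 := h.kill T ν hν _ hz
  have h2 := h.ge (ν + 1) (h.idem T z hZ)
  have h3 := Submodule.sub_mem _ h1 h2
  rwa [sub_sub_cancel] at h3

theorem Split.le_zero (h : Split rat Z Φ w d e) {ν : ℕ} {z : A} (hz : z ∈ Φ ν) : z ∈ Z := by
  rw [← h.zero]
  exact antitone h (Nat.zero_le ν) hz

/-- the part `e T z` of a cycle `z` in `F^ν` is zero if the weight of `T` is less than `ν` -/
theorem Split.low (h : Split rat Z Φ w d e) {T : ι} {ν : ℕ} (hT : w T < ν) {z : A}
    (hz : z ∈ Φ ν) : e T z ∈ rat := by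
  have h1 : ∀ k, e T z ∈ Φ (ν + k) := by
    intro k
    induction k with
    | zero => exact h.map T ν z hz
    | succ k ih =>
      have h2 : ν + k ≠ w T := by omega
      exact step h h2 (h.le_zero hz) ih
  exact h.top (antitone h (by omega) (h1 (d + 1)))

/-- the part `e T z` of every cycle is in `F^ν` if the weight of `T` is at least `ν` -/
theorem Split.high (h : Split rat Z Φ w d e) {T : ι} {ν : ℕ} (hT : ν ≤ w T) {z : A}
    (hz : z ∈ Z) : e T z ∈ Φ ν := by
  induction ν with
  | zero =>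
    refine h.map T 0 z ?_
    rw [h.zero]
    exact hz
  | succ ν ih => exact step h (by omega) hz (ih (by omega))

theorem Split.mem_iff (h : Split rat Z Φ w d e) (ν : ℕ) (z : A) :
    z ∈ Φ ν ↔ z ∈ Z ∧ ∀ T, w T < ν → e T z ∈ rat := by
  constructor
  · intro hz
    exact ⟨h.le_zero hz, fun T hT => h.low hT hz⟩
  · rintro ⟨hZ, h1⟩
    have h2 : ∑ T, e T z ∈ Φ ν := by
      refine Submodule.sum_mem _ fun T _ => ?_
      rcases Nat.lt_or_ge (w T) ν with hT | hT
      · exact h.ge ν (h1 T hT)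
      · exact h.high hT hZ
    have h3 := Submodule.add_mem _ (h.ge ν (h.sum z hZ)) h2
    rwa [sub_add_cancel] at h3

/-- two filtrations with the properties 1-4 are equal -/
theorem Split.unique (h : Split rat Z Φ w d e) (h' : Split rat Z Ψ w d e) (ν : ℕ) :
    Φ ν = Ψ ν := by
  ext z
  rw [h.mem_iff, h'.mem_iff]

end Pool.Agent.BBU
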