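import Pool.Agent.BBU.Conv

/-!
# Constants and rotations

For a finite group `R` which acts on the points of a variety, we consider the monoid `CR R` of the
maps `x ↦ ζ x` and of the constant maps `x ↦ ζ w`, where `w` is a fixed point. In its monoid algebra
there are three orthogonal idempotents with the sum `1`: the average of the constants, the average
of the rotations minus the average of the constants, and `1` minus the average of the rotations.
-/

set_option autoImplicit false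

namespace Pool.Agent.BBU

open scoped Classical

/-- constants and rotations -/
def CR (R : Type) : Type := R ⊕ R

variable {R : Type}

instance [Fintype R] : Fintype (CR R) := inferInstanceAs (Fintype (R ⊕ R))

/-- the constant map -/
def CR.c (ζ : R) : CR R := Sum.inl ζ

/-- the rotation -/
def CR.r (ζ : R) : CR R := Sum.inr ζ

instance [Mul R] : Mul (CR R) := ⟨fun x y => match x, y with
  | .inl ζ, _ => CR.c ζ
  | .inr ζ, .inl ζ' => CR.c (ζ * ζ')
  | .inr ζ, .inr ζ' => CR.r (ζ * ζ')⟩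

instance [One R] : One (CR R) := ⟨CR.r 1⟩

theorem CR.c_mul [Mul R] (ζ : R) (y : CR R) : CR.c ζ * y = CR.c ζ := rfl

theorem CR.r_mul_c [Mul R] (ζ ζ' : R) : CR.r ζ * CR.c ζ' = CR.c (ζ * ζ') := rfl

theorem CR.r_mul_r [Mul R] (ζ ζ' : R) : CR.r ζ * CR.r ζ' = CR.r (ζ * ζ') := rfl

theorem CR.one_eq [One R] : (1 : CR R) = CR.r 1 := rfl

theorem CR.cases' (x : CR R) : (∃ ζ, x = CR.c ζ) ∨ ∃ ζ, x = CR.r ζ := by
  rcases x with ζ | ζ
  · exact Or.inl ⟨ζ, rfl⟩
  · exact Or.inr ⟨ζ, rfl⟩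

theorem CR.c_inj {ζ ζ' : R} : CR.c ζ = CR.c ζ' ↔ ζ = ζ' := Sum.inl_injective.eq_iff

theorem CR.r_inj {ζ ζ' : R} : CR.r ζ = CR.r ζ' ↔ ζ = ζ' := Sum.inr_injective.eq_iff

theorem CR.c_ne_r {ζ ζ' : R} : CR.c ζ ≠ CR.r ζ' := Sum.inl_ne_inr

theorem CR.sum_eq [Fintype R] {V : Type*} [AddCommMonoid V] (f : CR R → V) :
    ∑ x, f x = ∑ ζ, f (CR.c ζ) + ∑ ζ, f (CR.r ζ) := Fintype.sum_sum_type f

/-- the coefficients of the three idempotents: for the level `0` the average of the constants, for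
the level `1` the average of the rotations minus the average of the constants, for the level `2` the
identity minus the average of the rotations -/
noncomputable def cf (R : Type) [Fintype R] [One R] (l : Fin 3) (x : CR R) : ℚ := match x with
  | .inl _ => if l = 0 then (Fintype.card R : ℚ)⁻¹ else if l = 1 then -(Fintype.card R : ℚ)⁻¹ else 0
  | .inr ζ => if l = 0 then 0 else if l = 1 then (Fintype.card R : ℚ)⁻¹ else
      (if ζ = 1 then 1 else 0) - (Fintype.card R : ℚ)⁻¹

section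

variable [Fintype R] [Group R]

private lemma card_ne : (Fintype.card R : ℚ) ≠ 0 := by
  exact_mod_cast Fintype.card_ne_zero

theorem cf_c0 (ζ : R) : cf R 0 (CR.c ζ) = (Fintype.card R : ℚ)⁻¹ := rfl
theorem cf_c1 (ζ : R) : cf R 1 (CR.c ζ) = -(Fintype.card R : ℚ)⁻¹ := rfl
theorem cf_c2 (ζ : R) : cf R 2 (CR.c ζ) = 0 := rfl
theorem cf_r0 (ζ : R) : cf R 0 (CR.r ζ) = 0 := rfl
theorem cf_r1 (ζ : R) : cf R 1 (CR.r ζ) = (Fintype.card R : ℚ)⁻¹ := rfl
theorem cf_r2 (ζ : R) :
    cf R 2 (CR.r ζ) = (if ζ = 1 then 1 else 0) - (Fintype.card R : ℚ)⁻¹ := rfl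

private lemma three (p : Fin 3 → Prop) (h0 : p 0) (h1 : p 1) (h2 : p 2) (l : Fin 3) : p l := by
  fin_cases l
  · exact h0
  · exact h1
  · exact h2

theorem cf_sum (s : CR R) : ∑ l, cf R l s = if s = 1 then 1 else 0 := by
  rw [Fin.sum_univ_three]
  rcases s.cases' with ⟨ζ, rfl⟩ | ⟨ζ, rfl⟩
  · rw [cf_c0, cf_c1, cf_c2, if_neg (by rw [CR.one_eq]; exact CR.c_ne_r)]
    ring
  · rw [cf_r0, cf_r1, cf_r2, CR.one_eq, CR.r_inj]
    ring

/-- the sum of the coefficients of the rotations -/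
theorem cf_sum_r (l : Fin 3) : ∑ ζ : R, cf R l (CR.r ζ) = if l = 1 then 1 else 0 := by
  revert l
  refine three _ ?_ ?_ ?_
  · simp [cf_r0]
  · simp [cf_r1]
  · simp [cf_r2]

/-- the sum of all coefficients -/
theorem cf_sum_all (l : Fin 3) : ∑ x, cf R l x = if l = 0 then 1 else 0 := by
  rw [CR.sum_eq, cf_sum_r]
  revert l
  refine three _ ?_ ?_ ?_
  · simp [cf_c0]
  · simp [cf_c1]
  · simp [cf_c2]

/-- they are idempotents -/
theorem cf_idem (l : Fin 3) (s : CR R) :
    ∑ x, ∑ y, (if x * y = s then cf R l x * cf R l y else 0) = cf R l s := by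
  have hN := card_ne (R := R)
  rw [CR.sum_eq]
  have h1 : ∀ ζ, ∑ y, (if CR.c ζ * y = s then cf R l (CR.c ζ) * cf R l y else 0) =
      (if CR.c ζ = s then cf R l (CR.c ζ) else 0) * ∑ y, cf R l y := by
    intro ζ
    rw [Finset.mul_sum]
    refine Finset.sum_congr rfl fun y _ => ?_
    by_cases h : CR.c ζ = s
    · rw [if_pos h, if_pos (by rw [CR.c_mul]; exact h)]
    · rw [if_neg h, if_neg (by rw [CR.c_mul]; exact h), zero_mul]
  have h2 : ∀ ζ, ∑ y, (if CR.r ζ * y = s then cf R l (CR.r ζ) * cf R l y else 0) =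
      cf R l (CR.r ζ) * cf R l (CR.r ζ⁻¹ * s) := by
    intro ζ
    rw [Finset.sum_eq_single (CR.r ζ⁻¹ * s)]
    · rw [if_pos]
      rcases s.cases' with ⟨ρ, rfl⟩ | ⟨ρ, rfl⟩
      · rw [CR.r_mul_c, CR.r_mul_c, mul_inv_cancel_left]
      · rw [CR.r_mul_r, CR.r_mul_r, mul_inv_cancel_left]
    · intro y _ hy
      rw [if_neg]
      rintro rfl
      apply hy
      rcases y.cases' with ⟨ρ, rfl⟩ | ⟨ρ, rfl⟩
      · rw [CR.r_mul_c, CR.r_mul_c, inv_mul_cancel_left]
      · rw [CR.r_mul_r, CR.r_mul_r, inv_mul_cancel_left]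
    · intro h
      exact absurd (Finset.mem_univ _) h
  rw [Finset.sum_congr rfl fun ζ _ => h1 ζ, Finset.sum_congr rfl fun ζ _ => h2 ζ, cf_sum_all,
    ← Finset.sum_mul]
  rcases s.cases' with ⟨ρ, rfl⟩ | ⟨ρ, rfl⟩
  · simp only [CR.c_inj, Finset.sum_ite_eq', Finset.mem_univ, if_true, CR.r_mul_c]
    revert l
    refine three _ ?_ ?_ ?_
    · simp [cf_c0, cf_r0]
    · intro _ _
      simp only [cf_c1, cf_r1]
      simp
    · simp [cf_c2]
  · have h3 : ∀ ζ : R, (CR.c ζ = CR.r ρ) = False := fun ζ => eq_false CR.c_ne_r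
    simp only [h3, if_false, Finset.sum_const_zero, zero_mul, zero_add, CR.r_mul_r]
    revert l
    refine three _ ?_ ?_ ?_
    · simp [cf_r0]
    · intro _ _
      simp only [cf_r1]
      simp [hN]
    · intro _ _
      simp only [cf_r2]
      have h4 : ∀ ζ : R, ((if ζ = 1 then (1 : ℚ) else 0) - (Fintype.card R : ℚ)⁻¹) *
          ((if ζ⁻¹ * ρ = 1 then (1 : ℚ) else 0) - (Fintype.card R : ℚ)⁻¹) =
          (if ζ = 1 then (if ρ = 1 then (1 : ℚ) else 0) else 0) -
            (if ζ = 1 then (Fintype.card R : ℚ)⁻¹ else 0) -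
            (if ζ = ρ then (Fintype.card R : ℚ)⁻¹ else 0) +
              (Fintype.card R : ℚ)⁻¹ * (Fintype.card R : ℚ)⁻¹ := by
        intro ζ
        have h5 : ζ⁻¹ * ρ = 1 ↔ ζ = ρ := by
          rw [inv_mul_eq_one]
        rw [if_congr h5 rfl rfl]
        by_cases h6 : ζ = 1
        · subst h6
          rw [if_pos rfl, if_pos rfl, if_pos rfl, if_congr (eq_comm (a := ρ)) rfl rfl]
          split_ifs <;> ring
        · rw [if_neg h6, if_neg h6, if_neg h6]
          split_ifs <;> ring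
      rw [Finset.sum_congr rfl fun ζ _ => h4 ζ]
      simp only [Finset.sum_add_distrib, Finset.sum_sub_distrib, Finset.sum_ite_eq',
        Finset.mem_univ, if_true, Finset.sum_const, Finset.card_univ, nsmul_eq_mul]
      field_simp
      ring

end

end Pool.Agent.BBU
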