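import Mathlib

/-!
# Products of projectors

`M a`, `a ∈ ι`, are finite monoids, and for every `a` the `∑ x, q a l x • x` are idempotents in the
monoid algebra of `M a` with the sum `1`. Then the products of these elements over `a ∈ ι` are
idempotents in the monoid algebra of the product of the `M a`, and their sum is `1`.
-/

set_option autoImplicit false

namespace Pool.Agent.BBU

open scoped Classical

variable {ι : Type*} [Fintype ι] [DecidableEq ι] {M : ι → Type*} [∀ a, Fintype (M a)]
  {L : Type*} [Fintype L] {V : Type*} [AddCommGroup V] [Module ℚ V]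

theorem conv_idem [∀ a, Mul (M a)] (q : ∀ a, M a → ℚ)
    (h : ∀ a s, ∑ x, ∑ y, (if x * y = s then q a x * q a y else 0) = q a s)
    (G : (∀ a, M a) → V) :
    ∑ t : ∀ a, M a, ∑ t' : ∀ a, M a, ((∏ a, q a (t a)) * ∏ a, q a (t' a)) • G (t * t') =
      ∑ s : ∀ a, M a, (∏ a, q a (s a)) • G s := by
  have h1 : ∀ t t' : ∀ a, M a, ((∏ a, q a (t a)) * ∏ a, q a (t' a)) • G (t * t') =
      ∑ s : ∀ a, M a, (∏ a, if t a * t' a = s a then q a (t a) * q a (t' a) else 0) • G s := by
    intro t t'
    rw [Finset.sum_eq_single (t * t')]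
    · simp only [Pi.mul_apply, if_true]
      rw [Finset.prod_mul_distrib]
    · intro s _ hs
      obtain ⟨a, ha⟩ : ∃ a, s a ≠ (t * t') a := by
        by_contra hcon
        push Not at hcon
        exact hs (funext hcon)
      rw [Finset.prod_eq_zero (Finset.mem_univ a), zero_smul]
      rw [if_neg]
      intro h2
      exact ha h2.symm
    · intro h2
      exact absurd (Finset.mem_univ _) h2
  simp only [h1]
  have h2 : ∀ s : ∀ a, M a, ∏ a, q a (s a) =
      ∑ t : ∀ a, M a, ∑ t' : ∀ a, M a, ∏ a, (if t a * t' a = s a then q a (t a) * q a (t' a)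
        else 0) := by
    intro s
    rw [Finset.prod_congr rfl fun a _ => (h a (s a)).symm, Finset.prod_univ_sum,
      Fintype.piFinset_univ]
    refine Finset.sum_congr rfl fun t _ => ?_
    rw [Finset.prod_univ_sum, Fintype.piFinset_univ]
  simp only [h2, Finset.sum_smul]
  symm
  rw [Finset.sum_comm]
  exact Finset.sum_congr rfl fun t _ => Finset.sum_comm

theorem conv_sum [∀ a, One (M a)] (q : ∀ a, L → M a → ℚ)
    (h : ∀ a s, ∑ l, q a l s = if s = 1 then 1 else 0) (G : (∀ a, M a) → V) :
    ∑ κ : ι → L, ∑ t : ∀ a, M a, (∏ a, q a (κ a) (t a)) • G t = G 1 := by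
  rw [Finset.sum_comm]
  have h1 : ∀ t : ∀ a, M a, ∑ κ : ι → L, (∏ a, q a (κ a) (t a)) = ∏ a, ∑ l, q a l (t a) := by
    intro t
    rw [Finset.prod_univ_sum, Fintype.piFinset_univ]
  rw [Finset.sum_eq_single 1]
  · rw [← Finset.sum_smul, h1]
    simp only [h, Pi.one_apply, if_true, Finset.prod_const_one, one_smul]
  · intro t _ ht
    rw [← Finset.sum_smul, h1]
    obtain ⟨a, ha⟩ : ∃ a, t a ≠ 1 := by
      by_contra hcon
      push Not at hcon
      exact ht (funext hcon)
    rw [Finset.prod_eq_zero (Finset.mem_univ a) (by rw [h, if_neg ha]), zero_smul]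
  · intro h2
    exact absurd (Finset.mem_univ _) h2

end Pool.Agent.BBU
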