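import Pool.Agent.BBU.Conv

/-!
# Idempotents of products of monoids and of monoids with a zero

`Conv q` says that `∑ x, q x • x` is an idempotent of the monoid algebra of `M`.
-/

set_option autoImplicit false

namespace Pool.Agent.BBU

open scoped Classical

/-- `∑ x, q x • x` is an idempotent of the monoid algebra -/
def Conv {M : Type*} [Fintype M] [Mul M] (q : M → ℚ) : Prop :=
  ∀ s, ∑ x, ∑ y, (if x * y = s then q x * q y else 0) = q s

section prod

variable {ι : Type*} [Fintype ι] [DecidableEq ι] {M : ι → Type*} [∀ a, Fintype (M a)]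

theorem conv_prod [∀ a, Mul (M a)] (q : ∀ a, M a → ℚ) (h : ∀ a, Conv (q a)) :
    Conv fun t : ∀ a, M a => ∏ a, q a (t a) := by
  intro s
  have h1 := conv_idem (V := ℚ) q h fun u => if u = s then 1 else 0
  simp only [smul_eq_mul, mul_ite, mul_one, mul_zero, Finset.sum_ite_eq', Finset.mem_univ,
    if_true] at h1
  convert h1

theorem conv_sum' [∀ a, One (M a)] {L : ι → Type*} [∀ a, Fintype (L a)]
    (q : ∀ a, L a → M a → ℚ) (h : ∀ a s, ∑ l, q a l s = if s = 1 then 1 else 0) {V : Type*}
    [AddCommGroup V] [Module ℚ V] (G : (∀ a, M a) → V) :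
    ∑ κ : ∀ a, L a, ∑ t : ∀ a, M a, (∏ a, q a (κ a) (t a)) • G t = G 1 := by
  rw [Finset.sum_comm]
  have h1 : ∀ t : ∀ a, M a, ∑ κ : ∀ a, L a, (∏ a, q a (κ a) (t a)) =
      ∏ a, ∑ l, q a l (t a) := by
    intro t
    rw [Finset.prod_univ_sum, Fintype.piFinset_univ]
  rw [Finset.sum_eq_single 1]
  · rw [← Finset.sum_smul, h1]
    simp only [h, Pi.one_apply, if_true, Finset.prod_const_one, one_smul]
  · intro t _ ht
    rw [← Finset.sum_smul, h1]
    obtain ⟨a, ha⟩ : ∃ a, t a ≠ 1 := by
      by_contra hcon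
      push Not at hcon
      exact ht (funext hcon)
    rw [Finset.prod_eq_zero (Finset.mem_univ a) (by rw [h, if_neg ha]), zero_smul]
  · intro h2
    exact absurd (Finset.mem_univ _) h2

end prod

/-! ### Monoids with a zero -/

/-- the monoid `M` with a zero -/
def Z0 (M : Type) : Type := Option M

variable {M : Type}

instance [Fintype M] : Fintype (Z0 M) := inferInstanceAs (Fintype (Option M))

/-- the zero -/
def Z0.z : Z0 M := none

/-- the element `x` of `M` -/
def Z0.s (x : M) : Z0 M := some x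

instance [Mul M] : Mul (Z0 M) := ⟨fun x y => match x, y with
  | none, _ => Z0.z
  | some _, none => Z0.z
  | some a, some b => Z0.s (a * b)⟩

instance [One M] : One (Z0 M) := ⟨Z0.s 1⟩

theorem Z0.z_mul [Mul M] (x : Z0 M) : Z0.z * x = Z0.z := rfl

theorem Z0.s_mul_z [Mul M] (a : M) : Z0.s a * Z0.z = Z0.z := rfl

theorem Z0.s_mul_s [Mul M] (a b : M) : Z0.s a * Z0.s b = Z0.s (a * b) := rfl

theorem Z0.one_eq [One M] : (1 : Z0 M) = Z0.s 1 := rfl

theorem Z0.cases' (x : Z0 M) : x = Z0.z ∨ ∃ a, x = Z0.s a := by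
  rcases x with _ | a
  · exact Or.inl rfl
  · exact Or.inr ⟨a, rfl⟩

theorem Z0.s_inj {a b : M} : Z0.s a = Z0.s b ↔ a = b := (Option.some_injective M).eq_iff

theorem Z0.s_ne_z {a : M} : Z0.s a ≠ Z0.z := Option.some_ne_none a

theorem Z0.sum_eq [Fintype M] {V : Type*} [AddCommMonoid V] (f : Z0 M → V) :
    ∑ x, f x = f Z0.z + ∑ a, f (Z0.s a) := Fintype.sum_option f

/-- The idempotents: the zero, and for every idempotent of `M` its difference to a multiple of the
zero with the sum of the coefficients `0`. -/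
noncomputable def cfZ {L : Type} [Fintype M] (q : L → M → ℚ) (l : Option L) (x : Z0 M) : ℚ :=
  match l, x with
  | none, none => 1
  | none, some _ => 0
  | some l, none => -∑ x, q l x
  | some l, some x => q l x

section

variable [Fintype M] {L : Type} (q : L → M → ℚ)

theorem cfZ_nz : cfZ q none Z0.z = 1 := rfl
theorem cfZ_ns (a : M) : cfZ q none (Z0.s a) = 0 := rfl
theorem cfZ_sz (l : L) : cfZ q (some l) Z0.z = -∑ x, q l x := rfl
theorem cfZ_ss (l : L) (a : M) : cfZ q (some l) (Z0.s a) = q l a := rfl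

theorem conv_sq [Mul M] {p : M → ℚ} (h : Conv p) : (∑ x, p x) * ∑ x, p x = ∑ x, p x := by
  have h1 : ∀ s, p s = ∑ x, ∑ y, (if x * y = s then p x * p y else 0) := fun s => (h s).symm
  conv_rhs => rw [Finset.sum_congr rfl fun s _ => h1 s]
  rw [Finset.sum_comm, Finset.sum_mul]
  refine Finset.sum_congr rfl fun x _ => ?_
  rw [Finset.sum_comm, Finset.mul_sum]
  refine Finset.sum_congr rfl fun y _ => ?_
  rw [Finset.sum_ite_eq Finset.univ (x * y) fun _ => p x * p y, if_pos (Finset.mem_univ _)]

theorem cfZ_conv [Mul M] (h : ∀ l, Conv (q l)) (l : Option L) : Conv (cfZ q l) := by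
  intro s
  rw [Z0.sum_eq]
  rcases l with _ | l
  · have h1 : ∀ a, ∑ y, (if Z0.s a * y = s then cfZ q none (Z0.s a) * cfZ q none y else 0) =
        0 := by
      intro a
      refine Finset.sum_eq_zero fun y _ => ?_
      rw [cfZ_ns, zero_mul, ite_self]
    rw [Finset.sum_congr rfl fun a _ => h1 a, Finset.sum_const_zero, add_zero, Z0.sum_eq]
    have h2 : ∀ a, (if Z0.z * Z0.s a = s then cfZ q none Z0.z * cfZ q none (Z0.s a) else 0) =
        0 := by
      intro a
      rw [cfZ_ns, mul_zero, ite_self]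
    rw [Finset.sum_congr rfl fun a _ => h2 a, Finset.sum_const_zero, add_zero, Z0.z_mul, cfZ_nz,
      mul_one]
    rcases s.cases' with rfl | ⟨a, rfl⟩
    · rw [if_pos rfl, cfZ_nz]
    · rw [if_neg Z0.s_ne_z.symm, cfZ_ns]
  · have hs := conv_sq (h l)
    rcases s.cases' with rfl | ⟨a, rfl⟩
    · have h1 : ∑ y, (if Z0.z * y = Z0.z then cfZ q (some l) Z0.z * cfZ q (some l) y else 0) =
          0 := by
        have h2 : ∀ y : Z0 M, (if Z0.z * y = Z0.z then cfZ q (some l) Z0.z * cfZ q (some l) y
            else 0) = cfZ q (some l) Z0.z * cfZ q (some l) y := by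
          intro y
          rw [if_pos (Z0.z_mul y)]
        rw [Finset.sum_congr rfl fun y _ => h2 y, ← Finset.mul_sum, Z0.sum_eq]
        simp only [cfZ_sz, cfZ_ss]
        rw [neg_add_cancel, mul_zero]
      have h3 : ∀ a, ∑ y, (if Z0.s a * y = Z0.z then cfZ q (some l) (Z0.s a) *
          cfZ q (some l) y else 0) = q l a * -∑ x, q l x := by
        intro a
        rw [Z0.sum_eq, if_pos (Z0.s_mul_z a), cfZ_sz, cfZ_ss]
        have h4 : ∀ b, (if Z0.s a * Z0.s b = Z0.z then q l a * cfZ q (some l) (Z0.s b)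
            else 0) = 0 := by
          intro b
          rw [if_neg]
          rw [Z0.s_mul_s]
          exact Z0.s_ne_z
        rw [Finset.sum_congr rfl fun b _ => h4 b, Finset.sum_const_zero, add_zero]
      rw [h1, Finset.sum_congr rfl fun a _ => h3 a, ← Finset.sum_mul, zero_add, mul_neg, hs,
        cfZ_sz]
    · have h1 : ∑ y, (if Z0.z * y = Z0.s a then cfZ q (some l) Z0.z * cfZ q (some l) y
          else 0) = 0 := by
        refine Finset.sum_eq_zero fun y _ => ?_
        rw [if_neg]
        rw [Z0.z_mul]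
        exact Z0.s_ne_z.symm
      have h3 : ∀ b, ∑ y, (if Z0.s b * y = Z0.s a then cfZ q (some l) (Z0.s b) *
          cfZ q (some l) y else 0) = ∑ c, (if b * c = a then q l b * q l c else 0) := by
        intro b
        rw [Z0.sum_eq, if_neg (by rw [Z0.s_mul_z]; exact Z0.s_ne_z.symm), zero_add]
        refine Finset.sum_congr rfl fun c _ => ?_
        rw [cfZ_ss, cfZ_ss]
        by_cases h4 : b * c = a
        · rw [if_pos h4, if_pos (by rw [Z0.s_mul_s, h4])]
        · rw [if_neg h4, if_neg]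
          rw [Z0.s_mul_s, Z0.s_inj]
          exact h4
      rw [h1, Finset.sum_congr rfl fun b _ => h3 b, zero_add, cfZ_ss]
      exact h l a

theorem cfZ_sum [One M] [Fintype L] (h : ∀ x, ∑ l, q l x = if x = 1 then 1 else 0)
    (s : Z0 M) : ∑ l, cfZ q l s = if s = 1 then 1 else 0 := by
  rw [Fintype.sum_option]
  rcases s.cases' with rfl | ⟨a, rfl⟩
  · simp only [cfZ_nz, cfZ_sz]
    rw [Finset.sum_neg_distrib, Finset.sum_comm, Finset.sum_congr rfl fun x _ => h x,
      Finset.sum_ite_eq' Finset.univ (1 : M) fun _ => (1 : ℚ), if_pos (Finset.mem_univ _),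
      if_neg (by rw [Z0.one_eq]; exact Z0.s_ne_z.symm)]
    ring
  · simp only [cfZ_ns, cfZ_ss]
    rw [h, zero_add, Z0.one_eq]
    by_cases h1 : a = 1
    · rw [if_pos h1, if_pos (by rw [h1])]
    · rw [if_neg h1, if_neg]
      rw [Z0.s_inj]
      exact h1

end

/-! ### The monoid `{0, 1, -1}` -/

/-- the coefficients of the idempotents `0`, `(1 + (-1)) / 2 - 0`, `(1 - (-1)) / 2` -/
def cfS (l : Fin 3) (x : SignType) : ℚ :=
  if l = 0 then (if x = 0 then 1 else 0) else
    if l = 1 then (if x = 0 then -1 else 1 / 2) else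
      if x = 0 then 0 else if x = 1 then 1 / 2 else -1 / 2

theorem cfS_conv (l : Fin 3) : Conv (cfS l) := by
  intro s
  have h1 : ∀ f : SignType → ℚ, ∑ x, f x = f 0 + f (-1) + f 1 := by
    intro f
    have h2 : (Finset.univ : Finset SignType) = {0, -1, 1} := by decide
    rw [h2, Finset.sum_insert (by decide), Finset.sum_insert (by decide),
      Finset.sum_singleton, add_assoc]
  simp only [h1]
  fin_cases l <;> fin_cases s <;> simp [cfS] <;> norm_num

theorem cfS_sum (s : SignType) : ∑ l, cfS l s = if s = 1 then 1 else 0 := by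
  rw [Fin.sum_univ_three]
  fin_cases s <;> simp [cfS] <;> norm_num

end Pool.Agent.BBU
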